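import Pool.Agent.N520.SV.Fin3
import Pool.Agent.N520.AN.All

set_option autoImplicit false

open Pool.Agent.W689.Mk Filter Topology

namespace Pool.Agent.Results.MP_f22a19_gt.AntipodalHolonomy

/-- the standard simplex of dimension `k` -/
abbrev Simplex (k : ℕ) : Type := stdSimplex ℝ (Fin (k + 1))

/-- real singular chains of degree `k` of the space `M` -/
abbrev Chain (k : ℕ) (M : Type) [TopologicalSpace M] : Type := C(Simplex k, M) →₀ ℝ

/-- the inclusion of the face opposite to the vertex `i` -/
noncomputable def face {k : ℕ} (i : Fin (k + 2)) : C(Simplex k, Simplex (k + 1)) :=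
  ⟨stdSimplex.map i.succAbove, stdSimplex.continuous_map _⟩

/-- the boundary of singular chains -/
noncomputable def bdry {M : Type} [TopologicalSpace M] (k : ℕ) : Chain (k + 1) M →ₗ[ℝ] Chain k M :=
  Finsupp.linearCombination ℝ fun σ =>
    ∑ i : Fin (k + 2), ((-1 : ℝ) ^ (i : ℕ)) • Finsupp.single (σ.comp (face i)) 1

/-- the `ℓ¹`-norm of a singular chain: the sum of the absolute values of its coefficients -/
noncomputable def norm1 {M : Type} [TopologicalSpace M] {k : ℕ} (c : Chain k M) : ℝ :=
  ∑ σ ∈ c.support, |c σ|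

/-- The `ℓ¹`-seminorm of the homology class of a cycle `z`: the infimum of the norms of the
homologous cycles. For a fundamental cycle of a closed oriented manifold this is the simplicial
volume. -/
noncomputable def seminorm1 {k : ℕ} {M : Type} [TopologicalSpace M] (z : Chain (k + 1) M) : ℝ :=
  ⨅ c : Chain (k + 2) M, norm1 (z + bdry (k + 1) c)

section groups
variable {V : Type} [NormedAddCommGroup V] [NormedSpace ℝ V]

/-- The attracting space of a sequence of linear automorphisms: the limits of the sequences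
`g j (b j)` with `b j → 0`. (If the Cartan decompositions of the `g j` converge, this is the limit
of the sums of the directions of the singular values tending to infinity.) -/
def att (g : ℕ → V ≃ₗ[ℝ] V) : Submodule ℝ V where
  carrier := {v | ∃ b : ℕ → V, Tendsto b atTop (𝓝 0) ∧ Tendsto (fun j => g j (b j)) atTop (𝓝 v)}
  add_mem' := by
    rintro v w ⟨b, hb, hv⟩ ⟨c, hc, hw⟩
    exact ⟨fun j => b j + c j, by simpa using hb.add hc, by simpa using hv.add hw⟩
  zero_mem' := ⟨fun _ => 0, tendsto_const_nhds, by simp⟩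
  smul_mem' := by
    rintro a v ⟨b, hb, hv⟩
    exact ⟨fun j => a • b j, by simpa using hb.const_smul a, by simpa using hv.const_smul a⟩

/-- The limits of the sequences `g j (x j)` with `x` bounded. (If the Cartan decompositions
converge, this is the limit of the sums of the directions of the singular values which do not tend
to zero.) -/
def big (g : ℕ → V ≃ₗ[ℝ] V) : Submodule ℝ V where
  carrier := {v | ∃ (x : ℕ → V) (C : ℝ), (∀ j, ‖x j‖ ≤ C) ∧
    Tendsto (fun j => g j (x j)) atTop (𝓝 v)}
  add_mem' := by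
    rintro v w ⟨x, C, hx, hv⟩ ⟨y, D, hy, hw⟩
    exact ⟨fun j => x j + y j, C + D,
      fun j => (norm_add_le _ _).trans (add_le_add (hx j) (hy j)), by simpa using hv.add hw⟩
  zero_mem' := ⟨fun _ => 0, 0, fun _ => by simp, by simp⟩
  smul_mem' := by
    rintro a v ⟨x, C, hx, hv⟩
    refine ⟨fun j => a • x j, |a| * C, fun j => ?_, by simpa using hv.const_smul a⟩
    rw [norm_smul, Real.norm_eq_abs]
    exact mul_le_mul_of_nonneg_left (hx j) (abs_nonneg a)

/-- The norms of the `g j` tend to infinity. -/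
def Diverges (g : ℕ → V ≃ₗ[ℝ] V) : Prop :=
  ∃ v : ℕ → V, (∀ j, ‖v j‖ ≤ 1) ∧ Tendsto (fun j => ‖g j (v j)‖) atTop atTop

/-- The sequence has a limit flag `att g ⊆ big g` of dimensions `q` and `dim V - q`. -/
def HasFlag (q : ℕ) (g : ℕ → V ≃ₗ[ℝ] V) : Prop :=
  Module.finrank ℝ (att g) = q ∧ Module.finrank ℝ (big g) + q = Module.finrank ℝ V

/-- A divergent antipodal group of type `q`: every divergent sequence of its elements has a
subsequence with a limit flag of dimensions `q` and `dim V - q` (i.e. `q` singular values tend to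
infinity, `q` tend to zero, the other ones are bounded), and any two limit flags have the same
second space or are transversal: the first space of one meets the second space of the other only
in zero. -/
structure Antipodal (q : ℕ) (Λ : Subgroup (V ≃ₗ[ℝ] V)) : Prop where
  pos : 0 < q
  flag : ∀ g : ℕ → V ≃ₗ[ℝ] V, (∀ j, g j ∈ Λ) → Diverges g →
    ∃ φ : ℕ → ℕ, StrictMono φ ∧ HasFlag q (g ∘ φ)
  transversal : ∀ g h : ℕ → V ≃ₗ[ℝ] V, (∀ j, g j ∈ Λ) → (∀ j, h j ∈ Λ) → HasFlag q g →
    HasFlag q h → big g = big h ∨ att g ⊓ big h = ⊥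

end groups

section
variable {Γ E : Type} [Group Γ] [NormedAddCommGroup E] [NormedSpace ℝ E]

/-- the group of the linear automorphisms of `W` which are restrictions of linear parts of the
holonomies of elements of `H` -/
def LinOn (hol : Γ →* (E ≃ᵃ[ℝ] E)) (H : Subgroup Γ) (W : Submodule ℝ E) :
    Subgroup (W ≃ₗ[ℝ] W) where
  carrier := {A | ∃ γ ∈ H, ∀ v : W, (hol γ).linear (v : E) = (A v : E)}
  one_mem' := ⟨1, H.one_mem, fun v => by rw [map_one]; rfl⟩
  mul_mem' := by
    rintro A B ⟨γ, hγ, hA⟩ ⟨δ, hδ, hB⟩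
    refine ⟨γ * δ, H.mul_mem hγ hδ, fun v => ?_⟩
    show (hol (γ * δ)).linear (v : E) = ((A (B v) : W) : E)
    rw [← hA, ← hB, map_mul]
    rfl
  inv_mem' := by
    rintro A ⟨γ, hγ, hA⟩
    refine ⟨γ⁻¹, H.inv_mem hγ, fun v => ?_⟩
    have h1 : (v : E) = (hol γ).linear ((A⁻¹ v : W) : E) := by
      rw [hA]
      exact (congrArg Subtype.val (LinearEquiv.congr_fun (mul_inv_cancel A) v)).symm
    conv_lhs => rw [h1]
    have h2 : AffineEquiv.linearHom (hol γ⁻¹) * AffineEquiv.linearHom (hol γ) = 1 := by
      rw [← map_mul, ← map_mul, inv_mul_cancel, map_one, map_one]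
    exact LinearEquiv.congr_fun h2 ((A⁻¹ v : W) : E)

/-- If some subgroup of finite index of `H` preserves the space `big g` of a limit flag on `W`, then
the linear holonomy on `W` of some subgroup of finite index is solvable. (This condition excludes
nothing for non-elementary groups. Elementary Anosov groups are virtually cyclic.) -/
def ElementarySolvable (hol : Γ →* (E ≃ᵃ[ℝ] E)) (H : Subgroup Γ) (W : Submodule ℝ E) (q : ℕ) :
    Prop :=
  (∃ g : ℕ → W ≃ₗ[ℝ] W, (∀ j, g j ∈ LinOn hol H W) ∧ HasFlag q g ∧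
    ∃ H' : Subgroup Γ, H'.FiniteIndex ∧ H' ≤ H ∧
      ∀ A ∈ LinOn hol H' W, ∀ v ∈ big g, A v ∈ big g) →
  ∃ H' : Subgroup Γ, H'.FiniteIndex ∧ H' ≤ H ∧ Group.IsSolvable (LinOn hol H' W)

/-- the action of `H` by affine maps of `E / W` factors through a solvable group: the affine
holonomy of some derived subgroup of `H` acts trivially on `E / W` -/
def SolvableModulo (hol : Γ →* (E ≃ᵃ[ℝ] E)) (H : Subgroup Γ) (W : Submodule ℝ E) : Prop :=
  ∃ j : ℕ, ∀ γ ∈ derivedSeries H j, ∀ v : E, hol (γ : Γ) v - v ∈ W

/-- The linear holonomy of `H` preserves a flag `W = S 0 ⊆ S 1 ⊆ … ⊆ S (m + 1) = E`, acts on the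
quotients `S (i + 1) / S i`, `i < m`, by uniformly bounded maps, and on the last quotient
`S (m + 1) / S m` by uniformly quasi-conformal maps: with one constant `C`, every `γ` in `H`
multiplies the norms of the last quotient by a factor `c > 0`, up to the constant `C`. For
`W = E` (and `m = 0`) this is no condition. -/
def TameAbove (hol : Γ →* (E ≃ᵃ[ℝ] E)) (H : Subgroup Γ) (W : Submodule ℝ E) : Prop :=
  ∃ (S : ℕ → Submodule ℝ E) (m : ℕ) (C : ℝ), S 0 = W ∧ S (m + 1) = ⊤ ∧
    (∀ i ≤ m, S i ≤ S (i + 1)) ∧ (∀ i ≤ m, ∀ γ ∈ H, ∀ v ∈ S i, (hol γ).linear v ∈ S i) ∧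
    (∀ i < m, ∀ γ ∈ H, ∀ v ∈ S (i + 1), ∃ w ∈ S i, ‖(hol γ).linear v - w‖ ≤ C * ‖v‖) ∧
      ∀ γ ∈ H, ∃ c : ℝ, 0 < c ∧ ∀ v : E, (∃ w ∈ S m, ‖(hol γ).linear v - w‖ ≤ C * c * ‖v‖) ∧
        ∃ w ∈ S m, ‖(hol γ⁻¹).linear v - w‖ ≤ C * c⁻¹ * ‖v‖

end

/-- Let `M = X / Γ` be a closed affine manifold with parallel volume: `X` is a connected cover with
its group `Γ` acting freely, `dev` the developing map and `hol` the holonomy; suppose that `dev` is
injective (`M` is a quotient of a domain of the affine space). Suppose that the linear holonomy of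
some subgroup `H` of finite index preserves a subspace `W` of dimension `2 q` and acts on it through
a divergent antipodal group of type `q` (elementary groups being virtually solvable), that the
affine holonomy of `H` on the quotient by `W` is solvable, and that its linear holonomy there is
tame (`TameAbove`; the last two conditions are empty for `W = E`). Then the group `Γ` is virtually
solvable, and the `ℓ¹`-seminorm of all real homology classes of `M` of positive degree is zero; in
particular the simplicial volume of `M` is zero. -/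
theorem result (X Γ E : Type) [NormedAddCommGroup E] [NormedSpace ℝ E]
    [FiniteDimensional ℝ E] [TopologicalSpace X] [T2Space X] [SecondCountableTopology X]
    [ConnectedSpace X] [Group Γ] [MulAction Γ X] (dev : X → E) (hol : Γ →* (E ≃ᵃ[ℝ] E))
    (D : AffData X Γ E dev hol) (hfree : ∀ (γ : Γ) (x : X), γ • x = x → γ = 1)
    (hinj : Function.Injective dev) (H : Subgroup Γ) (hH : H.FiniteIndex) (W : Submodule ℝ E)
    (q : ℕ) (hdim : Module.finrank ℝ W = 2 * q) (hA : Antipodal q (LinOn hol H W))
    (hE : ElementarySolvable hol H W q) (hS : SolvableModulo hol H W) (hT : TameAbove hol H W) :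
    (∃ A : Subgroup Γ, A.FiniteIndex ∧ Group.IsSolvable A) ∧
      ∀ (k : ℕ) (z : Chain (k + 1) (MulAction.orbitRel.Quotient Γ X)), bdry k z = 0 →
        seminorm1 z = 0 := by
  have key : IsHomeomorph dev ∧
      ∃ H' : Subgroup Γ, H'.FiniteIndex ∧ Group.IsSolvable (H'.map hol) := by
    obtain ⟨j, hj⟩ := hS
    obtain ⟨S, m, C, h0, ht⟩ := hT
    subst h0
    exact Pool.Agent.N520.AN.anti_solvable X Γ E dev hol D hinj hfree H hH S m
      ⟨ht.1, ht.2.1, ht.2.2.1, C, ht.2.2.2⟩ q ⟨hA.pos, hA.flag, hA.transversal⟩ hdim hE j hj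
  exact Pool.Agent.N520.SV.solv_zero X Γ E dev hol D hfree key.1 key.2

end Pool.Agent.Results.MP_f22a19_gt.AntipodalHolonomy
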