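import Pool.Agent.N520.SV.Fin3
import Pool.Agent.N667.RO.Hyp

set_option autoImplicit false

open Pool.Agent.W689.Mk Filter Matrix

namespace Pool.Agent.Results.MP_f22a19_gt.RankOneNoZeroWeight

/-- the standard simplex of dimension `k` -/
abbrev Simplex (k : ℕ) : Type := stdSimplex ℝ (Fin (k + 1))

/-- real singular chains of degree `k` of the space `M` -/
abbrev Chain (k : ℕ) (M : Type) [TopologicalSpace M] : Type := C(Simplex k, M) →₀ ℝ

/-- the inclusion of the face opposite to the vertex `i` -/
noncomputable def face {k : ℕ} (i : Fin (k + 2)) : C(Simplex k, Simplex (k + 1)) :=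
  ⟨stdSimplex.map i.succAbove, stdSimplex.continuous_map _⟩

/-- the boundary of singular chains -/
noncomputable def bdry {M : Type} [TopologicalSpace M] (k : ℕ) : Chain (k + 1) M →ₗ[ℝ] Chain k M :=
  Finsupp.linearCombination ℝ fun σ =>
    ∑ i : Fin (k + 2), ((-1 : ℝ) ^ (i : ℕ)) • Finsupp.single (σ.comp (face i)) 1

/-- the `ℓ¹`-norm of a singular chain: the sum of the absolute values of its coefficients -/
noncomputable def norm1 {M : Type} [TopologicalSpace M] {k : ℕ} (c : Chain k M) : ℝ :=
  ∑ σ ∈ c.support, |c σ|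

/-- The `ℓ¹`-seminorm of the homology class of a cycle `z`: the infimum of the norms of the
homologous cycles. For a fundamental cycle of a closed oriented manifold this is the simplicial
volume. -/
noncomputable def seminorm1 {k : ℕ} {M : Type} [TopologicalSpace M] (z : Chain (k + 1) M) : ℝ :=
  ⨅ c : Chain (k + 2) M, norm1 (z + bdry (k + 1) c)

/-- The decompositions of a simple Lie group `G` of real rank one: `K` is a compact subset (a
compact neighbourhood of a maximal compact subgroup), `T` a one-parameter subgroup, `P` a subgroup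
and `w` an element of `G` such that `G = K T K` (Cartan), `G = K P` (Iwasawa), every `p` in `P` is
the product of some `T s` and an element `q` with `T (-t) * q * T t` in `K` for large `t`
(Langlands), `G = P ∪ P w P` (Bruhat), and `T t * w * T t` is in `K` for large `t` (Weyl). -/
structure RankOne {G : Type} [Group G] [TopologicalSpace G] (K : Set G) (P : Subgroup G)
    (T : ℝ → G) (w : G) : Prop where
  compact : IsCompact K
  add : ∀ s t, T (s + t) = T s * T t
  cartan : ∀ g, ∃ k ∈ K, ∃ t : ℝ, ∃ l ∈ K, g = k * T t * l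
  iwasawa : ∀ g, ∃ k ∈ K, ∃ p ∈ P, g = k * p
  langlands : ∀ p ∈ P, ∃ s : ℝ, ∀ᶠ t in atTop, T (-t) * (T (-s) * p) * T t ∈ K
  bruhat : ∀ g, g ∈ P ∨ ∃ p ∈ P, ∃ q ∈ P, g = p * w * q
  weyl : ∀ᶠ t in atTop, T t * w * T t ∈ K

/-- `G` is a topological group of rank one and `T` its one-parameter group -/
def IsRankOne {G : Type} [Group G] [TopologicalSpace G] (T : ℝ → G) : Prop :=
  IsTopologicalGroup G ∧ ∃ (K : Set G) (P : Subgroup G) (w : G), RankOne K P T w

/-- `ρ` is a continuous representation of `G` on `V` in which `T` acts diagonalizably, and zero is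
not a weight of `T`: `V` is spanned by weight vectors, and only zero is fixed by all `T t`. (The
diagonalizability is classical for every continuous finite dimensional representation of a simple
Lie group `G` and the one-parameter groups `T` above. Examples without zero weight are the
representations of `SL(2, ℝ)` on forms of odd degree in two variables, and the spin
representations of the groups `Spin(n, 1)`.) -/
def IsRepNoZero {G : Type} [Group G] [TopologicalSpace G] {V : Type} [NormedAddCommGroup V]
    [NormedSpace ℝ V] (T : ℝ → G) (ρ : G →* (V ≃ₗ[ℝ] V)) : Prop :=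
  (∀ v : V, Continuous fun g : G => ρ g v) ∧
    Submodule.span ℝ {v : V | ∃ c : ℝ, ∀ t : ℝ, ρ (T t) v = Real.exp (c * t) • v} = ⊤ ∧
    ∀ v : V, (∀ t : ℝ, ρ (T t) v = v) → v = 0

section
variable {Γ E : Type} [Group Γ] [NormedAddCommGroup E] [NormedSpace ℝ E]

/-- the linear holonomy of `H` preserves the subspace `W` and acts on it through some
representation without zero weight of some group of rank one -/
def RankOneOn (hol : Γ →* (E ≃ᵃ[ℝ] E)) (H : Subgroup Γ) (W : Submodule ℝ E) : Prop :=
  ∃ (G : Type) (_ : Group G) (_ : TopologicalSpace G) (T : ℝ → G) (ρ : G →* (W ≃ₗ[ℝ] W)),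
    IsRankOne T ∧ IsRepNoZero T ρ ∧
      ∀ γ ∈ H, ∃ g : G, ∀ v : W, (hol γ).linear (v : E) = (ρ g v : E)

/-- the action of `H` by affine maps of `E / W` factors through a solvable group: the affine
holonomy of some derived subgroup of `H` acts trivially on `E / W` -/
def SolvableModulo (hol : Γ →* (E ≃ᵃ[ℝ] E)) (H : Subgroup Γ) (W : Submodule ℝ E) : Prop :=
  ∃ j : ℕ, ∀ γ ∈ derivedSeries H j, ∀ v : E, hol (γ : Γ) v - v ∈ W

/-- The linear holonomy of `H` preserves a flag `W = S 0 ⊆ S 1 ⊆ … ⊆ S (m + 1) = E`, acts on the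
quotients `S (i + 1) / S i`, `i < m`, by uniformly bounded maps, and on the last quotient
`S (m + 1) / S m` by uniformly quasi-conformal maps: with one constant `C`, every `γ` in `H`
multiplies the norms of the last quotient by a factor `c > 0`, up to the constant `C`. For
`W = E` (and `m = 0`) this is no condition. -/
def TameAbove (hol : Γ →* (E ≃ᵃ[ℝ] E)) (H : Subgroup Γ) (W : Submodule ℝ E) : Prop :=
  ∃ (S : ℕ → Submodule ℝ E) (m : ℕ) (C : ℝ), S 0 = W ∧ S (m + 1) = ⊤ ∧
    (∀ i ≤ m, S i ≤ S (i + 1)) ∧ (∀ i ≤ m, ∀ γ ∈ H, ∀ v ∈ S i, (hol γ).linear v ∈ S i) ∧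
    (∀ i < m, ∀ γ ∈ H, ∀ v ∈ S (i + 1), ∃ w ∈ S i, ‖(hol γ).linear v - w‖ ≤ C * ‖v‖) ∧
      ∀ γ ∈ H, ∃ c : ℝ, 0 < c ∧ ∀ v : E, (∃ w ∈ S m, ‖(hol γ).linear v - w‖ ≤ C * c * ‖v‖) ∧
        ∃ w ∈ S m, ‖(hol γ⁻¹).linear v - w‖ ≤ C * c⁻¹ * ‖v‖

end

/-- Let `M = X / Γ` be a closed affine manifold with parallel volume: `X` is a connected cover with
its group `Γ` acting freely, `dev` the developing map and `hol` the holonomy; suppose that `dev` is
injective (`M` is a quotient of a domain of the affine space). Suppose that the linear holonomy of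
some subgroup `H` of finite index preserves a subspace `W` and acts on it through a representation
without zero weight of a group of rank one, that the affine holonomy of `H` on the quotient by `W`
is solvable, and that its linear holonomy there is tame (`TameAbove`); or that it acts trivially on
the quotient by some plane `W` (for `SL(2, ℝ)` acting on the plane this is a special case: up to a
finite cover, there are `n - 2` linearly independent parallel 1-forms). Then the group `Γ` is
virtually solvable, and the `ℓ¹`-seminorm of all real homology classes of `M` of positive degree is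
zero; in particular the simplicial volume of `M` is zero. -/
theorem result (X Γ E : Type) [NormedAddCommGroup E] [NormedSpace ℝ E]
    [FiniteDimensional ℝ E] [TopologicalSpace X] [T2Space X] [SecondCountableTopology X]
    [ConnectedSpace X] [Group Γ] [MulAction Γ X] (dev : X → E) (hol : Γ →* (E ≃ᵃ[ℝ] E))
    (D : AffData X Γ E dev hol) (hfree : ∀ (γ : Γ) (x : X), γ • x = x → γ = 1)
    (hinj : Function.Injective dev) (H : Subgroup Γ) (hH : H.FiniteIndex) (W : Submodule ℝ E)
    (hW : (RankOneOn hol H W ∧ SolvableModulo hol H W ∧ TameAbove hol H W) ∨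
      (Module.finrank ℝ W = 2 ∧ ∀ γ ∈ H, ∀ v : E, (hol γ).linear v - v ∈ W)) :
    (∃ A : Subgroup Γ, A.FiniteIndex ∧ Group.IsSolvable A) ∧
      ∀ (k : ℕ) (z : Chain (k + 1) (MulAction.orbitRel.Quotient Γ X)), bdry k z = 0 →
        seminorm1 z = 0 := by
  have key : IsHomeomorph dev ∧
      ∃ H' : Subgroup Γ, H'.FiniteIndex ∧ Group.IsSolvable (H'.map hol) := by
    rcases hW with ⟨⟨G, _, _, T, ρ, ⟨hG, K, P, w, hR⟩, ⟨hr1, hr2, hr3⟩, hρ⟩, ⟨j, hj⟩,
      S, m, C, h0, ht⟩ | ⟨hW2, hW⟩
    · subst h0
      exact Pool.Agent.N520.RO.rankF Pool.Agent.N667.RO.t_hyp (K := K) (P := P) (T := T) (w := w) hG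
        ⟨hR.compact, hR.add, hR.cartan, hR.iwasawa, hR.langlands, hR.bruhat, hR.weyl⟩
        X Γ E dev hol D hinj hfree H hH S m ⟨ht.1, ht.2.1, ht.2.2.1, C, ht.2.2.2⟩ ρ ⟨hr1, hr2⟩
        hr3 hρ j hj
    · exact Pool.Agent.N520.RO.plane_solv Pool.Agent.N667.RO.t_hyp X Γ E dev hol D hinj hfree H hH
        W hW2 hW
  exact Pool.Agent.N520.SV.solv_zero X Γ E dev hol D hfree key.1 key.2

end Pool.Agent.Results.MP_f22a19_gt.RankOneNoZeroWeight
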